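import Mathlib

set_option autoImplicit false

namespace Pool.Agent.Results.MP_04ec84_gt.MidpointDiameter

open Metric Set

/-- A set of constant width `1` in `ℝ^d`: a nonempty compact convex set such that for every unit
vector `u` the two supporting hyperplanes orthogonal to `u` are at distance `1`. -/
def ConstantWidthOne {d : ℕ} (K : Set (EuclideanSpace ℝ (Fin d))) : Prop :=
  K.Nonempty ∧ IsCompact K ∧ Convex ℝ K ∧
    ∀ u : EuclideanSpace ℝ (Fin d), ‖u‖ = 1 →
      sSup ((fun x => inner ℝ u x) '' K) - sInf ((fun x => inner ℝ u x) '' K) = 1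

/-- The set `M(K)` of midpoints of the diametral chords (of length `1`) of `K`. -/
def midpointSet {d : ℕ} (K : Set (EuclideanSpace ℝ (Fin d))) :
    Set (EuclideanSpace ℝ (Fin d)) :=
  {m | ∃ x ∈ K, ∃ y ∈ K, dist x y = 1 ∧ m = (1 / 2 : ℝ) • (x + y)}

section general

variable {E : Type*} [NormedAddCommGroup E] [InnerProductSpace ℝ E]

/-- A point of the chord `[p, y]` moved by a small amount stays in every unit ball containing
both `p` and `y`. -/
lemma lens {c p y w : E} {t : ℝ} (ht0 : 0 ≤ t) (ht1 : t ≤ 1)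
    (hp : ‖c - p‖ ≤ 1) (hy : ‖c - y‖ ≤ 1) (hw : ‖w‖ = 1) (hv : ‖p - y‖ ≤ 1) :
    ‖c - (p - t • (p - y) + (t * (1 - t) * ‖p - y‖ ^ 2 / 2) • w)‖ ≤ 1 := by
  set σ : ℝ := t * (1 - t) * ‖p - y‖ ^ 2 / 2 with hσ
  have hσ0 : 0 ≤ σ := by
    have : 0 ≤ t * (1 - t) := mul_nonneg ht0 (by linarith)
    positivity
  have hσ1 : σ ≤ 1 / 2 := by
    have h1 : t * (1 - t) ≤ 1 := by nlinarith
    have h2 : ‖p - y‖ ^ 2 ≤ 1 := by
      have := norm_nonneg (p - y); nlinarith
    have h3 : 0 ≤ t * (1 - t) := mul_nonneg ht0 (by linarith)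
    have h4 : 0 ≤ ‖p - y‖ ^ 2 := by positivity
    nlinarith
  have key : ‖c - (p - t • (p - y))‖ ^ 2 =
      (1 - t) * ‖c - p‖ ^ 2 + t * ‖c - y‖ ^ 2 - t * (1 - t) * ‖p - y‖ ^ 2 := by
    have e1 : c - (p - t • (p - y)) = (1 - t) • (c - p) + t • (c - y) := by
      module
    have e2 : p - y = (c - y) - (c - p) := by abel
    rw [e1, e2, norm_add_sq_real, norm_sub_sq_real (c - y) (c - p), norm_smul, norm_smul,
      inner_smul_left, inner_smul_right, mul_pow, mul_pow, Real.norm_eq_abs, Real.norm_eq_abs,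
      sq_abs, sq_abs, real_inner_comm (c - p) (c - y)]
    simp only [conj_trivial]
    ring
  have key2 : ‖c - (p - t • (p - y))‖ ^ 2 ≤ (1 - σ) ^ 2 := by
    have a1 : ‖c - p‖ ^ 2 ≤ 1 := by
      have := norm_nonneg (c - p); nlinarith
    have a2 : ‖c - y‖ ^ 2 ≤ 1 := by
      have := norm_nonneg (c - y); nlinarith
    have a3 : (1 - t) * ‖c - p‖ ^ 2 ≤ (1 - t) := by
      have : 0 ≤ 1 - t := by linarith
      nlinarith
    have a4 : t * ‖c - y‖ ^ 2 ≤ t := by nlinarith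
    have a5 : t * (1 - t) * ‖p - y‖ ^ 2 = 2 * σ := by rw [hσ]; ring
    rw [key, a5]
    nlinarith [sq_nonneg σ]
  have key3 : ‖c - (p - t • (p - y))‖ ≤ 1 - σ :=
    abs_le_of_sq_le_sq' key2 (by linarith) |>.2
  calc ‖c - (p - t • (p - y) + σ • w)‖ = ‖(c - (p - t • (p - y))) - σ • w‖ := by
        congr 1; abel
    _ ≤ ‖c - (p - t • (p - y))‖ + ‖σ • w‖ := norm_sub_le _ _
    _ ≤ (1 - σ) + σ := by
        rw [norm_smul, hw, mul_one, Real.norm_eq_abs, abs_of_nonneg hσ0]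
        linarith
    _ = 1 := by ring

/-- In a set which is the intersection of the unit balls centred at its points, the point at
distance `1` below a highest point belongs to the set. -/
lemma below_mem {K : Set E} (hK : ∀ z, z ∈ K ↔ ∀ y ∈ K, dist z y ≤ 1)
    {u p : E} (hu : ‖u‖ = 1) (hp : p ∈ K) (hmax : ∀ y ∈ K, inner ℝ u y ≤ inner ℝ u p) :
    p - u ∈ K := by
  rw [hK]
  intro y hy
  by_contra hcon
  push Not at hcon
  rw [dist_eq_norm] at hcon
  have hpy : ‖p - y‖ ≤ 1 := by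
    rw [← dist_eq_norm]; exact (hK p).1 hp y hy
  set s : ℝ := inner ℝ u (p - y) with hs
  have h1 : 1 < ‖p - u - y‖ ^ 2 := by
    have := norm_nonneg (p - u - y); nlinarith
  have h2 : ‖p - u - y‖ ^ 2 = ‖p - y‖ ^ 2 - 2 * s + 1 := by
    have : p - u - y = (p - y) - u := by abel
    rw [this, @norm_sub_sq_real, hu, real_inner_comm]
    simp [hs]
  have h3 : 2 * s < ‖p - y‖ ^ 2 := by linarith
  have hs0 : 0 ≤ s := by
    have := hmax y hy
    rw [hs, inner_sub_right]; linarith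
  have hv0 : 0 < ‖p - y‖ ^ 2 := by linarith
  -- choose t
  set V : ℝ := ‖p - y‖ ^ 2 with hV
  set t : ℝ := (V - 2 * s) / (2 * V) with ht
  have ht0 : 0 < t := by
    rw [ht]; apply div_pos <;> linarith
  have ht1 : t ≤ 1 / 2 := by
    rw [ht, div_le_div_iff₀ (by linarith) (by norm_num)]; linarith
  have hq : p - t • (p - y) + (t * (1 - t) * ‖p - y‖ ^ 2 / 2) • u ∈ K := by
    rw [hK]
    intro c hc
    rw [dist_comm, dist_eq_norm]
    apply lens ht0.le (by linarith) _ _ hu hpy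
    · rw [← dist_eq_norm]; exact (hK c).1 hc p hp
    · rw [← dist_eq_norm]; exact (hK c).1 hc y hy
  have hq2 := hmax _ hq
  rw [inner_add_right, inner_sub_right, inner_smul_right, inner_smul_right,
    real_inner_self_eq_norm_sq, hu, ← hs, ← hV] at hq2
  have hq3 : t * (1 - t) * V / 2 ≤ t * s := by linarith
  have hq4 : (1 - t) * V / 2 ≤ s := by
    have : t * ((1 - t) * V / 2) ≤ t * s := by linarith
    exact le_of_mul_le_mul_left this ht0
  have htV : t * V = (V - 2 * s) / 2 := by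
    rw [ht]; field_simp
  nlinarith

end general

/-- Every nonempty set with pairwise distances at most `1` lies in a set of constant width `1`. -/
lemma exists_constantWidth {d : ℕ} (X : Set (EuclideanSpace ℝ (Fin d))) (hX : X.Nonempty)
    (hd : ∀ x ∈ X, ∀ y ∈ X, dist x y ≤ 1) :
    ∃ K, X ⊆ K ∧ ConstantWidthOne K := by
  obtain ⟨K, hXK, hKmax⟩ := zorn_subset_nonempty
    {K : Set (EuclideanSpace ℝ (Fin d)) | ∀ x ∈ K, ∀ y ∈ K, dist x y ≤ 1} (by
      intro c hc hchain _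
      refine ⟨⋃₀ c, ?_, fun s hs => subset_sUnion_of_mem hs⟩
      rintro x ⟨s, hs, hxs⟩ y ⟨t, ht, hyt⟩
      rcases hchain.total hs ht with h | h
      · exact hc ht x (h hxs) y hyt
      · exact hc hs x hxs y (h hyt)) X hd
  have hKd : ∀ x ∈ K, ∀ y ∈ K, dist x y ≤ 1 := hKmax.prop
  have hK : ∀ z, z ∈ K ↔ ∀ y ∈ K, dist z y ≤ 1 := by
    intro z
    refine ⟨fun hz y hy => hKd z hz y hy, fun hz => ?_⟩
    have hins : insert z K ∈ {K : Set (EuclideanSpace ℝ (Fin d)) |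
        ∀ x ∈ K, ∀ y ∈ K, dist x y ≤ 1} := by
      intro x hx y hy
      rcases hx with rfl | hx <;> rcases hy with rfl | hy
      · simp
      · exact hz y hy
      · rw [dist_comm]; exact hz x hx
      · exact hKd x hx y hy
    exact hKmax.le_of_ge hins (subset_insert z K) (mem_insert z K)
  have hKeq : K = ⋂ y ∈ K, closedBall y 1 := by
    ext z
    simp only [mem_iInter, mem_closedBall]
    exact hK z
  have hne : K.Nonempty := hX.mono hXK
  have hcl : IsClosed K := by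
    rw [hKeq]; exact isClosed_biInter fun y _ => isClosed_closedBall
  have hbd : Bornology.IsBounded K := by
    rw [Metric.isBounded_iff]; exact ⟨1, fun x hx y hy => hKd x hx y hy⟩
  have hcomp : IsCompact K := Metric.isCompact_of_isClosed_isBounded hcl hbd
  have hconv : Convex ℝ K := by
    rw [hKeq]; exact convex_iInter₂ fun y _ => convex_closedBall y 1
  refine ⟨K, hXK, hne, hcomp, hconv, ?_⟩
  intro u hu
  have hcont : Continuous fun x : EuclideanSpace ℝ (Fin d) => inner ℝ u x := by fun_prop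
  have hcimg : IsCompact ((fun x : EuclideanSpace ℝ (Fin d) => inner ℝ u x) '' K) :=
    hcomp.image hcont
  have hnimg : ((fun x : EuclideanSpace ℝ (Fin d) => inner ℝ u x) '' K).Nonempty := hne.image _
  obtain ⟨p, hpK, hpmax⟩ := hcomp.exists_isMaxOn hne hcont.continuousOn
  have hpmax' : ∀ y ∈ K, inner ℝ u y ≤ inner ℝ u p := fun y hy => hpmax hy
  have hmem := below_mem hK hu hpK hpmax'
  have hsup : sSup ((fun x : EuclideanSpace ℝ (Fin d) => inner ℝ u x) '' K) = inner ℝ u p := by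
    apply IsGreatest.csSup_eq
    exact ⟨⟨p, hpK, rfl⟩, by rintro _ ⟨y, hy, rfl⟩; exact hpmax' y hy⟩
  have hinf : sInf ((fun x : EuclideanSpace ℝ (Fin d) => inner ℝ u x) '' K)
      = inner ℝ u p - 1 := by
    apply IsLeast.csInf_eq
    refine ⟨⟨p - u, hmem, ?_⟩, ?_⟩
    · simp [inner_sub_right, hu]
    · rintro _ ⟨y, hy, rfl⟩
      have h1 : inner ℝ u (p - y) ≤ ‖u‖ * ‖p - y‖ := real_inner_le_norm u (p - y)
      have h2 : ‖p - y‖ ≤ 1 := by rw [← dist_eq_norm]; exact hKd p hpK y hy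
      rw [hu, one_mul, inner_sub_right] at h1
      simp only
      linarith
  rw [hsup, hinf]; ring

/-- In a set of constant width `1` all distances are at most `1`. -/
lemma dist_le_one {d : ℕ} {K : Set (EuclideanSpace ℝ (Fin d))} (hK : ConstantWidthOne K)
    {x y : EuclideanSpace ℝ (Fin d)} (hx : x ∈ K) (hy : y ∈ K) : dist x y ≤ 1 := by
  obtain ⟨-, hcomp, -, hw⟩ := hK
  by_cases hxy : x = y
  · simp [hxy]
  have hpos : 0 < ‖x - y‖ := norm_pos_iff.2 (sub_ne_zero.2 hxy)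
  set u : EuclideanSpace ℝ (Fin d) := (‖x - y‖)⁻¹ • (x - y) with hu
  have hu1 : ‖u‖ = 1 := by
    rw [hu, norm_smul, norm_inv, norm_norm, inv_mul_cancel₀ hpos.ne']
  have hcont : Continuous fun x : EuclideanSpace ℝ (Fin d) => inner ℝ u x := by fun_prop
  have hcimg : IsCompact ((fun x : EuclideanSpace ℝ (Fin d) => inner ℝ u x) '' K) :=
    hcomp.image hcont
  have h1 : inner ℝ u x ≤ sSup ((fun x : EuclideanSpace ℝ (Fin d) => inner ℝ u x) '' K) :=
    le_csSup hcimg.bddAbove ⟨x, hx, rfl⟩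
  have h2 : sInf ((fun x : EuclideanSpace ℝ (Fin d) => inner ℝ u x) '' K) ≤ inner ℝ u y :=
    csInf_le hcimg.bddBelow ⟨y, hy, rfl⟩
  have h3 := hw u hu1
  have h4 : inner ℝ u (x - y) = ‖x - y‖ := by
    rw [hu, inner_smul_left, real_inner_self_eq_norm_sq]
    simp only [conj_trivial]
    field_simp
  rw [inner_sub_right] at h4
  rw [dist_eq_norm]
  linarith

/-- Parallelogram type identity for the midpoints of two segments. -/
lemma midpoint_identity {E : Type*} [NormedAddCommGroup E] [InnerProductSpace ℝ E]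
    (x y x' y' : E) :
    4 * ‖(1 / 2 : ℝ) • (x + y) - (1 / 2 : ℝ) • (x' + y')‖ ^ 2 =
      ‖x - x'‖ ^ 2 + ‖x - y'‖ ^ 2 + ‖y - x'‖ ^ 2 + ‖y - y'‖ ^ 2
        - ‖x - y‖ ^ 2 - ‖x' - y'‖ ^ 2 := by
  have e : (1 / 2 : ℝ) • (x + y) - (1 / 2 : ℝ) • (x' + y')
      = (1 / 2 : ℝ) • ((x + y) - (x' + y')) := by rw [smul_sub]
  rw [e, norm_smul, mul_pow]
  simp only [← real_inner_self_eq_norm_sq, inner_sub_left, inner_sub_right, inner_add_left,
    inner_add_right]
  rw [real_inner_comm x y, real_inner_comm x x', real_inner_comm x y', real_inner_comm y x',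
    real_inner_comm y y', real_inner_comm x' y']
  norm_num
  ring

/-- Upper bound in every dimension. -/
lemma upper_general {d : ℕ} {K : Set (EuclideanSpace ℝ (Fin d))} (hK : ConstantWidthOne K)
    {p q : EuclideanSpace ℝ (Fin d)} (hp : p ∈ midpointSet K) (hq : q ∈ midpointSet K) :
    dist p q ≤ Real.sqrt 2 / 2 := by
  obtain ⟨x, hx, y, hy, hxy, rfl⟩ := hp
  obtain ⟨x', hx', y', hy', hxy', rfl⟩ := hq
  have h := midpoint_identity x y x' y'
  have h1 : ‖x - x'‖ ≤ 1 := by rw [← dist_eq_norm]; exact dist_le_one hK hx hx'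
  have h2 : ‖x - y'‖ ≤ 1 := by rw [← dist_eq_norm]; exact dist_le_one hK hx hy'
  have h3 : ‖y - x'‖ ≤ 1 := by rw [← dist_eq_norm]; exact dist_le_one hK hy hx'
  have h4 : ‖y - y'‖ ≤ 1 := by rw [← dist_eq_norm]; exact dist_le_one hK hy hy'
  rw [dist_eq_norm] at hxy hxy' ⊢
  rw [hxy, hxy'] at h
  have n1 := norm_nonneg (x - x')
  have n2 := norm_nonneg (x - y')
  have n3 := norm_nonneg (y - x')
  have n4 := norm_nonneg (y - y')
  set r := ‖(1 / 2 : ℝ) • (x + y) - (1 / 2 : ℝ) • (x' + y')‖ with hr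
  have hr2 : r ^ 2 ≤ (Real.sqrt 2 / 2) ^ 2 := by
    rw [div_pow, Real.sq_sqrt (by norm_num)]
    nlinarith
  exact (abs_le_of_sq_le_sq' hr2 (by positivity)).2

/-- The real inequality behind the planar case. -/
lemma real_ineq {R A B p q : ℝ} (hA : 0 ≤ A) (hB : 0 ≤ B) (hAB : A + B = 1)
    (h1 : R + 2 * |p| + A ≤ 1) (h2 : R + 2 * |q| + B ≤ 1)
    (hid : R * (A * B) = p ^ 2 * B + q ^ 2 * A) : R ≤ 1 / 4 := by
  by_contra hcon
  push Not at hcon
  have hp0 := abs_nonneg p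
  have hq0 := abs_nonneg q
  have hRB : R ≤ B := by linarith
  have hRA : R ≤ A := by linarith
  have hp : 4 * p ^ 2 ≤ (B - R) ^ 2 := by
    have : 2 * |p| ≤ B - R := by linarith
    have h3 : (2 * |p|) ^ 2 ≤ (B - R) ^ 2 := by
      apply pow_le_pow_left₀ (by linarith) this
    rw [mul_pow, sq_abs] at h3
    linarith
  have hq : 4 * q ^ 2 ≤ (A - R) ^ 2 := by
    have : 2 * |q| ≤ A - R := by linarith
    have h3 : (2 * |q|) ^ 2 ≤ (A - R) ^ 2 := by
      apply pow_le_pow_left₀ (by linarith) this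
    rw [mul_pow, sq_abs] at h3
    linarith
  have h3 : 4 * (R * (A * B)) ≤ (B - R) ^ 2 * B + (A - R) ^ 2 * A := by
    rw [hid]
    nlinarith [mul_le_mul_of_nonneg_right hp hB, mul_le_mul_of_nonneg_right hq hA]
  have hB' : B = 1 - A := by linarith
  subst hB'
  have h4 : 3 * (A * (1 - A)) ≤ (1 - R) ^ 2 := by nlinarith
  have h5 : R * (1 - R) ≤ A * (1 - A) := by nlinarith
  have h6 : R < 1 := by linarith
  have h7 : 3 * R * (1 - R) ≤ (1 - R) * (1 - R) := by nlinarith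
  have h8 : 3 * R ≤ 1 - R := le_of_mul_le_mul_right h7 (by linarith)
  linarith

/-- Orthogonal decomposition identity in the plane. -/
lemma planar_identity {w1 w2 a1 a2 b1 b2 : ℝ} (h : a1 * b1 + a2 * b2 = 0) :
    (w1 ^ 2 + w2 ^ 2) * ((a1 ^ 2 + a2 ^ 2) * (b1 ^ 2 + b2 ^ 2)) =
      (w1 * a1 + w2 * a2) ^ 2 * (b1 ^ 2 + b2 ^ 2) + (w1 * b1 + w2 * b2) ^ 2 * (a1 ^ 2 + a2 ^ 2) := by
  grind

/-- The planar bound in terms of the half difference vectors `a`, `b` and of `w`. -/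
lemma plane_core {w1 w2 a1 a2 b1 b2 : ℝ} (h : a1 * b1 + a2 * b2 = 0)
    (hn : a1 ^ 2 + a2 ^ 2 + (b1 ^ 2 + b2 ^ 2) = 1)
    (h1 : (w1 + a1) ^ 2 + (w2 + a2) ^ 2 ≤ 1) (h2 : (w1 - a1) ^ 2 + (w2 - a2) ^ 2 ≤ 1)
    (h3 : (w1 + b1) ^ 2 + (w2 + b2) ^ 2 ≤ 1) (h4 : (w1 - b1) ^ 2 + (w2 - b2) ^ 2 ≤ 1) :
    w1 ^ 2 + w2 ^ 2 ≤ 1 / 4 := by
  have hid := planar_identity (w1 := w1) (w2 := w2) h
  refine real_ineq (A := a1 ^ 2 + a2 ^ 2) (B := b1 ^ 2 + b2 ^ 2) (p := w1 * a1 + w2 * a2)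
    (q := w1 * b1 + w2 * b2) (by positivity) (by positivity) hn ?_ ?_ hid
  · rcases abs_cases (w1 * a1 + w2 * a2) with ⟨h0, _⟩ | ⟨h0, _⟩ <;> rw [h0] <;> linarith
  · rcases abs_cases (w1 * b1 + w2 * b2) with ⟨h0, _⟩ | ⟨h0, _⟩ <;> rw [h0] <;> linarith

/-- Upper bound in the plane. -/
lemma upper_plane {K : Set (EuclideanSpace ℝ (Fin 2))} (hK : ConstantWidthOne K)
    {p q : EuclideanSpace ℝ (Fin 2)} (hp : p ∈ midpointSet K) (hq : q ∈ midpointSet K) :
    dist p q ≤ 1 / 2 := by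
  obtain ⟨x, hx, y, hy, hxy, rfl⟩ := hp
  obtain ⟨x', hx', y', hy', hxy', rfl⟩ := hq
  have h1 := dist_le_one hK hx hx'
  have h2 := dist_le_one hK hx hy'
  have h3 := dist_le_one hK hy hx'
  have h4 := dist_le_one hK hy hy'
  rw [EuclideanSpace.dist_eq, Fin.sum_univ_two, Real.sqrt_le_one] at h1 h2 h3 h4
  rw [EuclideanSpace.dist_eq, Fin.sum_univ_two, Real.sqrt_eq_one] at hxy hxy'
  rw [EuclideanSpace.dist_eq, Fin.sum_univ_two]
  apply Real.sqrt_le_iff.2 ⟨by norm_num, ?_⟩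
  simp only [Real.dist_eq, sq_abs] at *
  simp only [PiLp.smul_apply, PiLp.add_apply, smul_eq_mul]
  have := plane_core (w1 := 1 / 2 * (x 0 + y 0) - 1 / 2 * (x' 0 + y' 0))
    (w2 := 1 / 2 * (x 1 + y 1) - 1 / 2 * (x' 1 + y' 1))
    (a1 := ((x 0 - y 0) - (x' 0 - y' 0)) / 2) (a2 := ((x 1 - y 1) - (x' 1 - y' 1)) / 2)
    (b1 := ((x 0 - y 0) + (x' 0 - y' 0)) / 2) (b2 := ((x 1 - y 1) + (x' 1 - y' 1)) / 2)
    (by linear_combination (1 / 4) * hxy - (1 / 4) * hxy')
    (by linear_combination (1 / 2) * hxy + (1 / 2) * hxy')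
    (le_of_eq_of_le (by ring) h1) (le_of_eq_of_le (by ring) h4)
    (le_of_eq_of_le (by ring) h2) (le_of_eq_of_le (by ring) h3)
  linarith

/-- Squared norm of a combination of three orthonormal vectors. -/
lemma norm_comb {E : Type*} [NormedAddCommGroup E] [InnerProductSpace ℝ E] {e₀ e₁ e₂ : E}
    (h0 : ‖e₀‖ = 1) (h1 : ‖e₁‖ = 1) (h2 : ‖e₂‖ = 1) (h01 : inner ℝ e₀ e₁ = 0)
    (h02 : inner ℝ e₀ e₂ = 0) (h12 : inner ℝ e₁ e₂ = 0) (a b c : ℝ) :
    ‖a • e₀ + b • e₁ + c • e₂‖ ^ 2 = a ^ 2 + b ^ 2 + c ^ 2 := by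
  rw [norm_add_sq_real, norm_add_sq_real, inner_add_left, norm_smul, norm_smul, norm_smul,
    h0, h1, h2]
  simp only [inner_smul_left, inner_smul_right, h01, h02, h12, Real.norm_eq_abs, mul_one,
    sq_abs, mul_zero, add_zero]

/-- The midpoint set lies in `K` (for convex `K`), so it is bounded. -/
lemma midpointSet_bounded {d : ℕ} {K : Set (EuclideanSpace ℝ (Fin d))}
    (hK : ConstantWidthOne K) : Bornology.IsBounded (midpointSet K) := by
  apply hK.2.1.isBounded.subset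
  rintro _ ⟨x, hx, y, hy, -, rfl⟩
  rw [smul_add]
  exact hK.2.2.1 hx hy (by norm_num) (by norm_num) (by norm_num)

/-- From a configuration with far midpoints to a body of constant width. -/
lemma attained {d : ℕ} {x y x' y' : EuclideanSpace ℝ (Fin d)} {r : ℝ} (hr : 0 ≤ r)
    (h1 : dist x y = 1) (h2 : dist x' y' = 1) (h3 : dist x x' ≤ 1) (h4 : dist x y' ≤ 1)
    (h5 : dist y x' ≤ 1) (h6 : dist y y' ≤ 1)
    (h7 : dist ((1 / 2 : ℝ) • (x + y)) ((1 / 2 : ℝ) • (x' + y')) = r)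
    (hup : ∀ K : Set (EuclideanSpace ℝ (Fin d)), ConstantWidthOne K →
      ∀ p ∈ midpointSet K, ∀ q ∈ midpointSet K, dist p q ≤ r) :
    IsGreatest {s : ℝ | ∃ K : Set (EuclideanSpace ℝ (Fin d)),
      ConstantWidthOne K ∧ s = diam (midpointSet K)} r := by
  constructor
  · obtain ⟨K, hXK, hK⟩ := exists_constantWidth ({x, y, x', y'} : Set _) ⟨x, by simp⟩ (by
      intro a ha b hb
      simp only [mem_insert_iff, mem_singleton_iff] at ha hb
      rcases ha with rfl | rfl | rfl | rfl <;> rcases hb with rfl | rfl | rfl | rfl <;>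
        first
        | simp
        | assumption
        | (rw [dist_comm]; assumption)
        | exact le_of_eq (by assumption)
        | (rw [dist_comm]; exact le_of_eq (by assumption)))
    refine ⟨K, hK, ?_⟩
    have hx : x ∈ K := hXK (by simp)
    have hy : y ∈ K := hXK (by simp)
    have hx' : x' ∈ K := hXK (by simp)
    have hy' : y' ∈ K := hXK (by simp)
    apply le_antisymm
    · rw [← h7]
      apply dist_le_diam_of_mem (midpointSet_bounded hK)
      · exact ⟨x, hx, y, hy, h1, rfl⟩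
      · exact ⟨x', hx', y', hy', h2, rfl⟩
    · exact diam_le_of_forall_dist_le hr (hup K hK)
  · rintro s ⟨K, hK, rfl⟩
    exact diam_le_of_forall_dist_le hr (hup K hK)

/-- The largest possible diameter of the set of midpoints of the diametral chords of a set of
constant width `1` in `ℝ^d` is `1/2` for `d = 2` and `√2/2` for every `d ≥ 3`; it is attained. -/
theorem result : ∀ d : ℕ, 2 ≤ d →
    IsGreatest {s : ℝ | ∃ K : Set (EuclideanSpace ℝ (Fin d)),
      ConstantWidthOne K ∧ s = diam (midpointSet K)}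
      (if d = 2 then 1 / 2 else Real.sqrt 2 / 2) := by
  intro d hd
  rcases hd.eq_or_lt with rfl | hd3
  · rw [if_pos rfl]
    set x : EuclideanSpace ℝ (Fin 2) := !₂[0, 0] with hx
    set y : EuclideanSpace ℝ (Fin 2) := !₂[1, 0] with hy
    set z : EuclideanSpace ℝ (Fin 2) := !₂[1 / 2, Real.sqrt 3 / 2] with hz
    have h3 : (Real.sqrt 3) ^ 2 = 3 := Real.sq_sqrt (by norm_num)
    have dxy : dist x y = 1 := by
      rw [EuclideanSpace.dist_eq, Fin.sum_univ_two, Real.sqrt_eq_one, Real.dist_eq, Real.dist_eq,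
        sq_abs, sq_abs]
      simp [hx, hy]
    have dxz : dist x z = 1 := by
      rw [EuclideanSpace.dist_eq, Fin.sum_univ_two, Real.sqrt_eq_one, Real.dist_eq, Real.dist_eq,
        sq_abs, sq_abs]
      simp [hx, hz]
      nlinarith
    have dyz : dist y z = 1 := by
      rw [EuclideanSpace.dist_eq, Fin.sum_univ_two, Real.sqrt_eq_one, Real.dist_eq, Real.dist_eq,
        sq_abs, sq_abs]
      simp [hy, hz]
      nlinarith
    refine attained (x := x) (y := y) (x' := x) (y' := z) (by norm_num) dxy dxz (by simp)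
      dxz.le (by rw [dist_comm]; exact dxy.le) dyz.le ?_
      (fun K hK p hp q hq => upper_plane hK hp hq)
    rw [dist_eq_norm, ← smul_sub, norm_smul, add_sub_add_left_eq_sub, ← dist_eq_norm, dyz]
    norm_num
  · rw [if_neg (by omega)]
    obtain ⟨e₀, e₁, e₂, n0, n1, n2, h01, h02, h12⟩ : ∃ e₀ e₁ e₂ : EuclideanSpace ℝ (Fin d),
        ‖e₀‖ = 1 ∧ ‖e₁‖ = 1 ∧ ‖e₂‖ = 1 ∧ inner ℝ e₀ e₁ = 0 ∧ inner ℝ e₀ e₂ = 0 ∧
          inner ℝ e₁ e₂ = 0 := by
      refine ⟨EuclideanSpace.single ⟨0, by omega⟩ 1, EuclideanSpace.single ⟨1, by omega⟩ 1,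
        EuclideanSpace.single ⟨2, by omega⟩ 1, ?_⟩
      simp [EuclideanSpace.inner_single_left]
    set c : ℝ := Real.sqrt 2 / 4 with hc
    have hs2 : (Real.sqrt 2) ^ 2 = 2 := Real.sq_sqrt (by norm_num)
    have hs0 : 0 < Real.sqrt 2 := by positivity
    have hc2 : c ^ 2 = 1 / 8 := by rw [hc, div_pow, hs2]; norm_num
    have hdist : ∀ a b g a' b' g' : ℝ, (a - a') ^ 2 + (b - b') ^ 2 + (g - g') ^ 2 = 8 →
        dist ((a * c) • e₀ + (b * c) • e₁ + (g * c) • e₂)
          ((a' * c) • e₀ + (b' * c) • e₁ + (g' * c) • e₂) = 1 := by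
      intro a b g a' b' g' h
      have e : (a * c) • e₀ + (b * c) • e₁ + (g * c) • e₂ -
          ((a' * c) • e₀ + (b' * c) • e₁ + (g' * c) • e₂) =
          ((a - a') * c) • e₀ + ((b - b') * c) • e₁ + ((g - g') * c) • e₂ := by module
      rw [dist_eq_norm, e]
      have h' := norm_comb n0 n1 n2 h01 h02 h12 ((a - a') * c) ((b - b') * c) ((g - g') * c)
      have h'' : ‖((a - a') * c) • e₀ + ((b - b') * c) • e₁ + ((g - g') * c) • e₂‖ ^ 2 = 1 := by
        rw [h']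
        calc ((a - a') * c) ^ 2 + ((b - b') * c) ^ 2 + ((g - g') * c) ^ 2
            = ((a - a') ^ 2 + (b - b') ^ 2 + (g - g') ^ 2) * c ^ 2 := by ring
          _ = 1 := by rw [h, hc2]; norm_num
      exact (pow_eq_one_iff_of_nonneg (norm_nonneg _) two_ne_zero).1 h''
    refine attained (x := (1 * c) • e₀ + (1 * c) • e₁ + (1 * c) • e₂)
      (y := (1 * c) • e₀ + ((-1) * c) • e₁ + ((-1) * c) • e₂)
      (x' := ((-1) * c) • e₀ + (1 * c) • e₁ + ((-1) * c) • e₂)
      (y' := ((-1) * c) • e₀ + ((-1) * c) • e₁ + (1 * c) • e₂) (by positivity)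
      (hdist _ _ _ _ _ _ (by norm_num)) (hdist _ _ _ _ _ _ (by norm_num))
      (hdist _ _ _ _ _ _ (by norm_num)).le (hdist _ _ _ _ _ _ (by norm_num)).le
      (hdist _ _ _ _ _ _ (by norm_num)).le (hdist _ _ _ _ _ _ (by norm_num)).le ?_
      (fun K hK p hp q hq => upper_general hK hp hq)
    have e : (1 / 2 : ℝ) • ((1 * c) • e₀ + (1 * c) • e₁ + (1 * c) • e₂ +
        ((1 * c) • e₀ + ((-1) * c) • e₁ + ((-1) * c) • e₂)) -
        (1 / 2 : ℝ) • (((-1) * c) • e₀ + (1 * c) • e₁ + ((-1) * c) • e₂ +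
        (((-1) * c) • e₀ + ((-1) * c) • e₁ + (1 * c) • e₂)) = (2 * c) • e₀ := by module
    rw [dist_eq_norm, e, norm_smul, n0, Real.norm_eq_abs, abs_of_nonneg (by positivity), hc]
    ring

end Pool.Agent.Results.MP_04ec84_gt.MidpointDiameter
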